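import Mathlib
import Pool.Agent.Lib.MP_d90615_co.Mg.G005

/-!
The degree of a vertex in the random forest is a sum of independent Bernoulli variables.
-/

set_option autoImplicit false
set_option linter.unusedSectionVars false

namespace Pool.Agent.Lib.MP_d90615_co

open Matrix Finset
open scoped Classical Topology

lemma bernoulli_multiset (s : Multiset ℝ) (hs : ∀ r ∈ s, r < 0) :
    ∃ (n : ℕ) (p : Fin n → ℝ), (∀ i, 0 < p i ∧ p i ≤ 1) ∧
      ∀ t : ℝ, (s.map (fun r => t - r)).prod =
        (s.map (fun r => 1 - r)).prod * ∏ i, (1 - p i + p i * t) := by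
  induction s using Multiset.induction_on with
  | empty => exact ⟨0, Fin.elim0, fun i => i.elim0, fun t => by simp⟩
  | cons r s ih =>
    obtain ⟨n, p, hp, h⟩ := ih fun r' hr' => hs r' (Multiset.mem_cons_of_mem hr')
    have hr := hs r (Multiset.mem_cons_self r s)
    have hr1 : 0 < 1 - r := by linarith
    refine ⟨n + 1, Fin.cons (1 / (1 - r)) p, ?_, ?_⟩
    · intro i
      refine Fin.cases ?_ (fun j => ?_) i
      · rw [Fin.cons_zero]
        exact ⟨by positivity, by rw [div_le_one hr1]; linarith⟩
      · rw [Fin.cons_succ]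
        exact hp j
    · intro t
      rw [Multiset.map_cons, Multiset.prod_cons, Multiset.map_cons, Multiset.prod_cons, h t,
        Fin.prod_univ_succ, Fin.cons_zero]
      simp only [Fin.cons_succ]
      have h1 : t - r = (1 - r) * (1 - 1 / (1 - r) + 1 / (1 - r) * t) := by
        field_simp
        ring
      rw [h1]
      ring

/-- A real polynomial with nonnegative coefficients, positive constant term and only real zeros
is a multiple of a product of Bernoulli generating functions. -/
lemma bernoulli_of_real_rooted (P : Polynomial ℝ) (hc : ∀ k, 0 ≤ P.coeff k)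
    (h0 : 0 < P.coeff 0) (hr : ∀ t : ℂ, (P.map (algebraMap ℝ ℂ)).eval t = 0 → t.im = 0) :
    ∃ (n : ℕ) (p : Fin n → ℝ), (∀ i, 0 < p i ∧ p i ≤ 1) ∧
      ∀ t : ℝ, P.eval t = P.eval 1 * ∏ i, (1 - p i + p i * t) := by
  have hsplit : P.Splits := by
    refine Polynomial.Splits.of_splits_map_of_injective (i := algebraMap ℝ ℂ)
      (algebraMap ℝ ℂ).injective (IsAlgClosed.splits _) fun a ha => ?_
    have h1 := hr a (Polynomial.mem_roots'.mp ha).2
    exact ⟨a.re, Complex.ext (by simp) (by simp [h1])⟩
  have hneg : ∀ r ∈ P.roots, r < 0 := by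
    intro r hr
    by_contra hcon
    have hcon : 0 ≤ r := not_lt.mp hcon
    have h1 : P.eval r = 0 := (Polynomial.mem_roots'.mp hr).2
    have h2 : P.coeff 0 ≤ P.eval r := by
      rw [Polynomial.eval_eq_sum_range]
      have h3 := Finset.single_le_sum (f := fun i => P.coeff i * r ^ i)
        (s := Finset.range (P.natDegree + 1)) (fun i _ => mul_nonneg (hc i) (pow_nonneg hcon i))
        (Finset.mem_range.mpr (Nat.succ_pos _))
      simpa using h3
    linarith
  obtain ⟨n, p, hp, h⟩ := bernoulli_multiset P.roots hneg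
  refine ⟨n, p, hp, fun t => ?_⟩
  rw [hsplit.eval_eq_prod_roots t, hsplit.eval_eq_prod_roots 1, h t]
  ring

variable {V E : Type*} [Fintype V] [Fintype E]

/-- The generating function of the degree of `h`. -/
theorem degree_law (ends : E → Sym2 V) (hloop : ∀ e, ¬ (ends e).IsDiag) (w : E → ℝ)
    (hw : ∀ e, 0 ≤ w e) (h : V) :
    ∃ (n : ℕ) (p : Fin n → ℝ), (∀ i, 0 < p i ∧ p i ≤ 1) ∧
      ∀ t : ℝ, ∑ F ∈ (univ : Finset (Finset E)) with Forest ends F,
          (∏ g ∈ F, w g) * t ^ (F.filter (fun g => h ∈ ends g)).card =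
        (∑ F ∈ (univ : Finset (Finset E)) with Forest ends F, ∏ g ∈ F, w g) *
          ∏ i, (1 - p i + p i * t) := by
  set P : Polynomial ℝ := ∑ F ∈ (univ : Finset (Finset E)) with Forest ends F,
    Polynomial.C (∏ g ∈ F, w g) * Polynomial.X ^ (F.filter (fun g => h ∈ ends g)).card with hP
  have heval : ∀ t : ℝ, P.eval t = ∑ F ∈ (univ : Finset (Finset E)) with Forest ends F,
          (∏ g ∈ F, w g) * t ^ (F.filter (fun g => h ∈ ends g)).card := by
    intro t
    rw [hP, Polynomial.eval_finsetSum]
    refine Finset.sum_congr rfl fun F _ => ?_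
    rw [Polynomial.eval_mul, Polynomial.eval_C, Polynomial.eval_pow, Polynomial.eval_X]
  have hevalC : ∀ t : ℂ, (P.map (algebraMap ℝ ℂ)).eval t =
      gs ends w h (fun g => w g * t) := by
    intro t
    rw [hP, Polynomial.map_sum, Polynomial.eval_finsetSum, gs]
    refine Finset.sum_congr rfl fun F _ => ?_
    simp only [Polynomial.map_mul, Polynomial.map_C, Polynomial.map_pow, Polynomial.map_X,
      Polynomial.eval_mul, Polynomial.eval_C, Polynomial.eval_pow, Polynomial.eval_X]
    have h1 : ∀ g, (if h ∈ ends g then (w g : ℂ) * t else (w g : ℂ)) =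
        (w g : ℂ) * (if h ∈ ends g then t else 1) := by
      intro g
      split_ifs <;> simp
    simp only [h1, Finset.prod_mul_distrib]
    rw [← Finset.prod_filter, Finset.prod_const]
    congr 1
    simp
  have hc : ∀ k, 0 ≤ P.coeff k := by
    intro k
    rw [hP, Polynomial.finsetSum_coeff]
    refine Finset.sum_nonneg fun F _ => ?_
    rw [Polynomial.coeff_C_mul, Polynomial.coeff_X_pow]
    have := Finset.prod_nonneg fun g (_ : g ∈ F) => hw g
    split_ifs <;> simp [this]
  have h0 : 0 < P.coeff 0 := by
    have h2 : (∅ : Finset E) ∈ (univ : Finset (Finset E)).filter (fun F => Forest ends F) := by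
      rw [mem_filter]
      refine ⟨mem_univ _, ?_⟩
      intro e he
      simp at he
    rw [hP, Polynomial.finsetSum_coeff]
    have h3 := Finset.single_le_sum (f := fun F : Finset E =>
      (Polynomial.C (∏ g ∈ F, w g) *
        Polynomial.X ^ (F.filter (fun g => h ∈ ends g)).card : Polynomial ℝ).coeff 0)
      (fun F _ => by
        rw [Polynomial.coeff_C_mul, Polynomial.coeff_X_pow]
        have := Finset.prod_nonneg fun g (_ : g ∈ F) => hw g
        split_ifs <;> simp [this]) h2
    refine lt_of_lt_of_le one_pos ?_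
    simpa using h3
  have hr : ∀ t : ℂ, (P.map (algebraMap ℝ ℂ)).eval t = 0 → t.im = 0 := by
    have hup : ∀ t : ℂ, 0 < t.im → (P.map (algebraMap ℝ ℂ)).eval t ≠ 0 := by
      intro t ht
      rw [hevalC]
      refine gs_ne_zero ends hloop w hw h _ fun g _ => ?_
      rcases (hw g).eq_or_lt with h1 | h1
      · right
        rw [← h1]
        simp
      · left
        rw [Complex.im_ofReal_mul]
        positivity
    intro t ht
    by_contra hne
    rcases lt_or_gt_of_ne hne with h1 | h1
    · refine hup ((starRingEnd ℂ) t) (by rw [Complex.conj_im]; linarith) ?_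
      have h2 : (P.map (algebraMap ℝ ℂ)).eval ((starRingEnd ℂ) t) =
          (starRingEnd ℂ) ((P.map (algebraMap ℝ ℂ)).eval t) := by
        rw [hevalC, hevalC, gs, gs, map_sum]
        refine Finset.sum_congr rfl fun F _ => ?_
        rw [map_prod]
        refine Finset.prod_congr rfl fun g _ => ?_
        split_ifs <;> simp
      rw [h2, ht, map_zero]
    · exact hup t h1 ht
  obtain ⟨n, p, hp, h⟩ := bernoulli_of_real_rooted P hc h0 hr
  refine ⟨n, p, hp, fun t => ?_⟩
  rw [← heval, h t, heval 1]
  simp

end Pool.Agent.Lib.MP_d90615_co
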